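import Pool.Agent.R153.DS2

set_option autoImplicit false

/-! MP_47b218_nt: the Hankel determinants of the binary digit sum are 2-automatic modulo every
positive integer. -/

namespace Pool.Agent.Results.MP_47b218_nt.AllModuli

open Pool.Agent.R153.DS

/-- the binary digit sum -/
def s (m : ℕ) : ℤ := ((Nat.digits 2 m).sum : ℕ)

/-- the Hankel determinant of size `n` of the binary digit sum -/
def H (n : ℕ) : ℤ := (Matrix.of fun i j : Fin n => s (i + j)).det

/-- the sequence is computed by a finite automaton with output reading the base-2 digits of `n`,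
most significant digit first (`Nat.digits` lists the least significant digit first) -/
def Automatic (a : ℕ → ℤ) : Prop :=
  ∃ (Q : Type) (_ : Finite Q) (step : Q → ℕ → Q) (start : Q) (out : Q → ℤ),
    ∀ n, a n = out ((Nat.digits 2 n).foldr (fun d q => step q d) start)

/-- the 2-kernel of a sequence -/
def kernel (a : ℕ → ℤ) : Set (ℕ → ℤ) :=
  {b | ∃ e r : ℕ, r < 2 ^ e ∧ b = fun n => a (2 ^ e * n + r)}

theorem automatic_of {Q : Type} [Finite Q] (st : ℕ → Q) (d0 d1 : Q → Q) (out : Q → ℤ)
    (a : ℕ → ℤ) (h0 : ∀ n, st (2 * n) = d0 (st n)) (h1 : ∀ n, st (2 * n + 1) = d1 (st n))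
    (ha : ∀ n, a n = out (st n)) : Automatic a ∧ (kernel a).Finite := by
  constructor
  · refine ⟨Q, inferInstance, fun q d => if d = 0 then d0 q else d1 q, st 0, out, ?_⟩
    intro n
    rw [ha]
    congr 1
    induction n using Nat.strong_induction_on with
    | _ n ih =>
      rcases Nat.eq_zero_or_pos n with h | h
      · subst h
        simp
      · rw [Nat.digits_def' (by norm_num) h, List.foldr_cons, ← ih (n / 2) (by omega)]
        rcases Nat.even_or_odd' n with ⟨k, hk | hk⟩
        · have e1 : n % 2 = 0 := by omega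
          have e2 : n / 2 = k := by omega
          rw [e1, e2]
          change st n = if (0 : ℕ) = 0 then d0 (st k) else d1 (st k)
          rw [if_pos rfl, ← h0, hk]
        · have e1 : n % 2 = 1 := by omega
          have e2 : n / 2 = k := by omega
          rw [e1, e2]
          change st n = if (1 : ℕ) = 0 then d0 (st k) else d1 (st k)
          rw [if_neg one_ne_zero, ← h1, hk]
  · have key : ∀ e r : ℕ, r < 2 ^ e → ∃ φ : Q → Q, ∀ n, st (2 ^ e * n + r) = φ (st n) := by
      intro e
      induction e with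
      | zero =>
        intro r hr
        refine ⟨id, fun n => ?_⟩
        have : r = 0 := by simpa using hr
        subst this
        simp
      | succ e ih =>
        intro r hr
        obtain ⟨φ, hφ⟩ := ih (r / 2) (by rw [pow_succ] at hr; omega)
        rcases Nat.even_or_odd' r with ⟨k, hk | hk⟩
        · refine ⟨fun q => d0 (φ q), fun n => ?_⟩
          have e1 : 2 ^ (e + 1) * n + r = 2 * (2 ^ e * n + r / 2) := by
            have : r = 2 * (r / 2) := by omega
            conv_lhs => rw [this]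
            ring
          rw [e1, h0, hφ]
        · refine ⟨fun q => d1 (φ q), fun n => ?_⟩
          have e1 : 2 ^ (e + 1) * n + r = 2 * (2 ^ e * n + r / 2) + 1 := by
            have : r = 2 * (r / 2) + 1 := by omega
            conv_lhs => rw [this]
            ring
          rw [e1, h1, hφ]
    have hfin : (Set.range (fun φ : Q → Q => fun n => out (φ (st n)))).Finite :=
      Set.finite_range _
    apply hfin.subset
    rintro b ⟨e, r, hr, rfl⟩
    obtain ⟨φ, hφ⟩ := key e r hr
    refine ⟨φ, ?_⟩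
    funext n
    rw [ha, hφ]

theorem s_even (m : ℕ) : s (2 * m) = 1 * s m := by
  unfold s
  rcases Nat.eq_zero_or_pos m with h | h
  · subst h; simp
  · rw [Nat.digits_def' (by norm_num) (by omega : 0 < 2 * m)]
    simp

theorem s_odd (m : ℕ) : s (2 * m + 1) = 1 * s m + 1 := by
  unfold s
  rw [Nat.digits_def' (by norm_num) (by omega : 0 < 2 * m + 1)]
  have h1 : (2 * m + 1) % 2 = 1 := by omega
  have h2 : (2 * m + 1) / 2 = m := by omega
  rw [h1, h2, List.sum_cons]
  push_cast
  ring

theorem H_eq (n : ℕ) : H n = Hk s n := rfl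

def A' (n : ℕ) : ℤ := Hd s n
def G (n : ℕ) : ℤ := Hk (dif s) n
def G' (n : ℕ) : ℤ := Hd (dif s) n
def B (n : ℕ) : ℤ := Hk (dif (dif s)) n

theorem one_mul_fun (f : ℕ → ℤ) : (fun m => 1 * f m) = f := by
  funext m
  rw [one_mul]

theorem K_eq (n : ℕ) : Kd 1 s n = G n - 2 * G' n := by
  rw [Kd_eq, one_mul_fun]
  rfl

theorem H_rec {k l n : ℕ} (hk : k = (n + 1) / 2) (hl : l = n / 2) :
    H n = H k * (G l - 2 * G' l) - A' k * G' l := by
  rw [H_eq, H_eq, A_rec s_even s_odd hk hl, one_mul_fun, one_mul_fun, K_eq]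
  rfl

theorem A'_rec1 {k l n : ℕ} (hk : k = (n + 1) / 2) (hl : l = n / 2) :
    A' n = A' k * (G l - 2 * G' l) := by
  unfold A'
  rw [A'_rec s_even s_odd hk hl, one_mul_fun, K_eq]

theorem G_even (n : ℕ) : G (2 * n) = (-1) ^ n * ((G n - 2 * G' n) * G n) := by
  have := G_rec s_even s_odd n
  rw [one_mul_fun, K_eq] at this
  exact this

theorem G'_even (n : ℕ) : G' (2 * n) = (-1) ^ n * ((G n - 2 * G' n) * (2 * G' n)) := by
  have := G'_rec s_even s_odd n
  rw [one_mul_fun, K_eq] at this
  exact this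

theorem G_odd1 (n : ℕ) : G (2 * n + 1) = (-1) ^ n * B n ^ 2 := by
  have := G_odd s_even s_odd n
  rw [one_mul_fun] at this
  exact this

theorem G'_odd1 (n : ℕ) : G' (2 * n + 1) = (-1) ^ n * B n ^ 2 := by
  have := G'_odd s_even s_odd n
  rw [one_mul_fun] at this
  exact this

theorem B_rec1 {k l n : ℕ} (hk : k = (n + 1) / 2) (hl : l = n / 2) :
    B n = (G k - 2 * G' k) * B l := by
  unfold B
  rw [B_rec s_even s_odd hk hl, one_mul_fun, K_eq]

section automaton

variable (M : ℕ)

abbrev Q : Type := ZMod M × ZMod M × ZMod M × ZMod M × ZMod M × ZMod M × ZMod M × ZMod M ×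
  ZMod M × ZMod M × ZMod M

def st (n : ℕ) : Q M := ((H n : ℤ), (H (n + 1) : ℤ), (A' n : ℤ), (A' (n + 1) : ℤ), (G n : ℤ),
  (G (n + 1) : ℤ), (G' n : ℤ), (G' (n + 1) : ℤ), (B n : ℤ), (B (n + 1) : ℤ), (-1) ^ n)

def d0 : Q M → Q M := fun (a, a1, b, b1, g, g1, h, h1, c, _, e) =>
  (a * (g - 2 * h) - b * h, a1 * (g - 2 * h) - b1 * h, b * (g - 2 * h), b1 * (g - 2 * h),
    e * ((g - 2 * h) * g), e * c ^ 2, e * ((g - 2 * h) * (2 * h)), e * c ^ 2,
    (g - 2 * h) * c, (g1 - 2 * h1) * c, 1)

def d1 : Q M → Q M := fun (_, a1, _, b1, g, g1, h, h1, c, c1, e) =>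
  (a1 * (g - 2 * h) - b1 * h, a1 * (g1 - 2 * h1) - b1 * h1, b1 * (g - 2 * h),
    b1 * (g1 - 2 * h1), e * c ^ 2, - e * ((g1 - 2 * h1) * g1), e * c ^ 2,
    - e * ((g1 - 2 * h1) * (2 * h1)), (g1 - 2 * h1) * c, (g1 - 2 * h1) * c1, -1)

theorem st_even (n : ℕ) : st M (2 * n) = d0 M (st M n) := by
  unfold st d0
  rw [H_rec (k := n) (l := n) (n := 2 * n) (by omega) (by omega),
    H_rec (k := n + 1) (l := n) (n := 2 * n + 1) (by omega) (by omega),
    A'_rec1 (k := n) (l := n) (n := 2 * n) (by omega) (by omega),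
    A'_rec1 (k := n + 1) (l := n) (n := 2 * n + 1) (by omega) (by omega),
    G_even, G'_even, G_odd1, G'_odd1,
    B_rec1 (k := n) (l := n) (n := 2 * n) (by omega) (by omega),
    B_rec1 (k := n + 1) (l := n) (n := 2 * n + 1) (by omega) (by omega)]
  push_cast
  rw [pow_mul]
  norm_num

theorem st_odd (n : ℕ) : st M (2 * n + 1) = d1 M (st M n) := by
  unfold st d1
  have e : 2 * n + 1 + 1 = 2 * (n + 1) := by ring
  rw [e, H_rec (k := n + 1) (l := n + 1) (n := 2 * (n + 1)) (by omega) (by omega),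
    H_rec (k := n + 1) (l := n) (n := 2 * n + 1) (by omega) (by omega),
    A'_rec1 (k := n + 1) (l := n + 1) (n := 2 * (n + 1)) (by omega) (by omega),
    A'_rec1 (k := n + 1) (l := n) (n := 2 * n + 1) (by omega) (by omega),
    G_even, G'_even, G_odd1, G'_odd1,
    B_rec1 (k := n + 1) (l := n + 1) (n := 2 * (n + 1)) (by omega) (by omega),
    B_rec1 (k := n + 1) (l := n) (n := 2 * n + 1) (by omega) (by omega)]
  push_cast
  rw [pow_succ (-1 : ZMod M) (2 * n), pow_mul, pow_succ (-1 : ZMod M) n]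
  norm_num

end automaton

theorem all_moduli (M : ℕ) (hM : 1 ≤ M) :
    Automatic (fun n => H (n + 1) % (M : ℤ)) ∧ (kernel (fun n => H (n + 1) % (M : ℤ))).Finite := by
  have : NeZero M := ⟨by omega⟩
  apply automatic_of (st M) (d0 M) (d1 M) (fun q => ((q.2.1.val : ℕ) : ℤ)) _ (st_even M) (st_odd M)
  intro n
  change H (n + 1) % (M : ℤ) = ((((H (n + 1) : ℤ) : ZMod M).val : ℕ) : ℤ)
  rw [ZMod.val_intCast]

/-- modulo every power of two, and more generally modulo every positive integer, the Hankel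
determinants of the binary digit sum form a 2-automatic sequence -/
theorem result :
    (∀ k : ℕ, 1 ≤ k → Automatic (fun n => H (n + 1) % 2 ^ k) ∧
      (kernel (fun n => H (n + 1) % 2 ^ k)).Finite) ∧
    ∀ M : ℕ, 1 ≤ M → Automatic (fun n => H (n + 1) % (M : ℤ)) ∧
      (kernel (fun n => H (n + 1) % (M : ℤ))).Finite := by
  refine ⟨fun k _ => ?_, all_moduli⟩
  have h := all_moduli (2 ^ k) Nat.one_le_two_pow
  push_cast at h
  exact h

end Pool.Agent.Results.MP_47b218_nt.AllModuli
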